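import Pool.Agent.Q285.CE.EllD

/-!
# The classes of the points of `y² + D y = x³` modulo cubes
-/

set_option autoImplicit false

namespace Pool.Agent.Q123.CE

open WeierstrassCurve Pool.Agent.Q285.CE

section cube

variable {F : Type*} [Field F]

/-- `a` is a nonzero cube -/
def IsC (a : F) : Prop := ∃ s : F, s ≠ 0 ∧ a = s ^ 3

theorem IsC.one : IsC (1 : F) := ⟨1, one_ne_zero, by norm_num⟩

theorem IsC.mul {a b : F} (ha : IsC a) (hb : IsC b) : IsC (a * b) := by
  obtain ⟨s, hs, rfl⟩ := ha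
  obtain ⟨t, ht, rfl⟩ := hb
  exact ⟨s * t, mul_ne_zero hs ht, by ring⟩

theorem IsC.inv {a : F} (ha : IsC a) : IsC a⁻¹ := by
  obtain ⟨s, hs, rfl⟩ := ha
  exact ⟨s⁻¹, inv_ne_zero hs, by rw [inv_pow]⟩

theorem IsC.ne {a : F} (ha : IsC a) : a ≠ 0 := by
  obtain ⟨s, hs, rfl⟩ := ha
  exact pow_ne_zero 3 hs

theorem IsC.div {a b : F} (ha : IsC a) (hb : IsC b) : IsC (a / b) := by
  rw [div_eq_mul_inv]
  exact ha.mul hb.inv

theorem IsC.of {s : F} (hs : s ≠ 0) : IsC (s ^ 3) := ⟨s, hs, rfl⟩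

open Classical in
/-- the class belonging to the second coordinate `y` -/
noncomputable def cy (D y : F) : F := if y = 0 then D⁻¹ else y

theorem cy_zero (D : F) : cy D 0 = D⁻¹ := if_pos rfl

theorem cy_of {D y : F} (h : y ≠ 0) : cy D y = y := if_neg h

theorem cy_ne {D : F} (hD : D ≠ 0) (y : F) : cy D y ≠ 0 := by
  by_cases h : y = 0
  · rw [h, cy_zero]
    exact inv_ne_zero hD
  · rwa [cy_of h]

/-- opposite points -/
theorem cy_neg {D : F} (hD : D ≠ 0) {x y : F} (c : y ^ 2 + D * y = x ^ 3) : IsC (cy D y * cy D (-y - D)) := by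
  by_cases h : y = 0
  · subst h
    have h1 : -0 - D ≠ 0 := by
      rw [neg_zero, zero_sub]
      exact neg_ne_zero.2 hD
    rw [cy_zero, cy_of h1]
    refine ⟨-1, neg_ne_zero.2 one_ne_zero, ?_⟩
    rw [neg_zero, zero_sub, mul_neg, inv_mul_cancel₀ hD]
    ring
  · by_cases h' : -y - D = 0
    · have hy : y = -D := by linear_combination -h'
      rw [h', cy_zero, cy_of h, hy]
      refine ⟨-1, neg_ne_zero.2 one_ne_zero, ?_⟩
      rw [neg_mul, mul_inv_cancel₀ hD]
      ring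
    · rw [cy_of h, cy_of h']
      refine ⟨-x, ?_, by linear_combination -c⟩
      intro hx
      have hx0 : x = 0 := neg_eq_zero.1 hx
      rw [hx0] at c
      have h1 : y * (-y - D) = 0 := by linear_combination -c
      rcases mul_eq_zero.1 h1 with h2 | h2
      · exact h h2
      · exact h' h2

theorem L3a {D : F} (hD : D ≠ 0) {ℓ m x1 x2 x3 y1 y2 y3 : F} (h1 : y1 = ℓ * x1 + m) (h2 : y2 = ℓ * x2 + m)
    (h3 : y3 = ℓ * x3 + m) (c1 : y1 ^ 2 + D * y1 = x1 ^ 3)
    (e2 : x1 * x2 + x1 * x3 + x2 * x3 = -(2 * ℓ * m + D * ℓ)) (k1 : y1 = 0) (k2 : y2 ≠ 0) (k3 : y3 ≠ 0) :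
    IsC (cy D y1 * cy D y2 * cy D y3) := by
  have hx1 : x1 = 0 := by
    have : x1 ^ 3 = 0 := by rw [← c1, k1]; ring
    exact pow_eq_zero_iff three_ne_zero |>.1 this
  have hm : m = 0 := by
    rw [k1, hx1] at h1
    linear_combination -h1
  rw [k1, cy_zero, cy_of k2, cy_of k3]
  have h4 : y2 * y3 = -D * ℓ ^ 3 := by
    rw [h2, h3, hm]
    rw [hx1, hm] at e2
    linear_combination ℓ ^ 2 * e2
  refine ⟨-ℓ, ?_, ?_⟩
  · intro hℓ
    have hℓ0 : ℓ = 0 := neg_eq_zero.1 hℓ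
    rw [hℓ0] at h4
    apply mul_ne_zero k2 k3
    rw [h4]
    ring
  · rw [mul_assoc, h4, ← mul_assoc, mul_neg, inv_mul_cancel₀ hD]
    ring

/-- three points on a line -/
theorem L3 {D : F} (hD : D ≠ 0) {ℓ m x1 x2 x3 y1 y2 y3 : F} (h1 : y1 = ℓ * x1 + m) (h2 : y2 = ℓ * x2 + m)
    (h3 : y3 = ℓ * x3 + m) (c1 : y1 ^ 2 + D * y1 = x1 ^ 3) (c2 : y2 ^ 2 + D * y2 = x2 ^ 3)
    (c3 : y3 ^ 2 + D * y3 = x3 ^ 3) (e1 : x1 + x2 + x3 = ℓ ^ 2)
    (e2 : x1 * x2 + x1 * x3 + x2 * x3 = -(2 * ℓ * m + D * ℓ)) (e3 : x1 * x2 * x3 = m ^ 2 + D * m) :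
    IsC (cy D y1 * cy D y2 * cy D y3) := by
  have two : ∀ {x1 x2 x3 y1 y2 y3 : F}, y1 = ℓ * x1 + m → y2 = ℓ * x2 + m → y3 = ℓ * x3 + m →
      y1 ^ 2 + D * y1 = x1 ^ 3 → y2 ^ 2 + D * y2 = x2 ^ 3 → x1 * x2 + x1 * x3 + x2 * x3 = -(2 * ℓ * m + D * ℓ) →
      y1 = 0 → y2 = 0 → y3 = 0 := by
    intro x1 x2 x3 y1 y2 y3 h1 h2 h3 c1 c2 e2 k1 k2
    have hx1 : x1 = 0 := by
      have : x1 ^ 3 = 0 := by rw [← c1, k1]; ring
      exact pow_eq_zero_iff three_ne_zero |>.1 this
    have hx2 : x2 = 0 := by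
      have : x2 ^ 3 = 0 := by rw [← c2, k2]; ring
      exact pow_eq_zero_iff three_ne_zero |>.1 this
    have hm : m = 0 := by
      rw [k1, hx1] at h1
      linear_combination -h1
    have hℓ : ℓ = 0 := by
      rw [hx1, hx2, hm] at e2
      have h5 : D * ℓ = 0 := by linear_combination e2
      exact (mul_eq_zero.1 h5).resolve_left hD
    rw [h3, hm, hℓ]
    ring
  by_cases k1 : y1 = 0
  · by_cases k2 : y2 = 0
    · have k3 := two h1 h2 h3 c1 c2 e2 k1 k2
      rw [k1, k2, k3, cy_zero]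
      exact ⟨D⁻¹, inv_ne_zero hD, by ring⟩
    · by_cases k3 : y3 = 0
      · exact absurd (two h1 h3 h2 c1 c3 (by linear_combination e2) k1 k3) k2
      · exact L3a hD h1 h2 h3 c1 e2 k1 k2 k3
  · by_cases k2 : y2 = 0
    · by_cases k3 : y3 = 0
      · exact absurd (two h2 h3 h1 c2 c3 (by linear_combination e2) k2 k3) k1
      · have h := L3a hD h2 h1 h3 c2 (by linear_combination e2) k2 k1 k3
        rwa [mul_comm (cy D y2)] at h
    · by_cases k3 : y3 = 0
      · have h := L3a hD h3 h1 h2 c3 (by linear_combination e2) k3 k1 k2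
        rwa [mul_assoc, mul_comm] at h
      · rw [cy_of k1, cy_of k2, cy_of k3]
        have h4 : y1 * y2 * y3 = m ^ 3 := by
          rw [h1, h2, h3]
          linear_combination ℓ ^ 3 * e3 + ℓ ^ 2 * m * e2 + ℓ * m ^ 2 * e1
        rw [h4]
        refine IsC.of ?_
        rintro rfl
        apply mul_ne_zero (mul_ne_zero k1 k2) k3
        rw [h4]
        ring

end cube

variable {F : Type*} [Field F] {V : WeierstrassCurve F} {D : F}

/-- the class of a point -/
noncomputable def cl (D : F) : V.toAffine.Point → F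
  | 0 => 1
  | .some _ y _ => cy D y

theorem cl_zero : cl D (0 : V.toAffine.Point) = 1 := rfl

theorem cl_some {x y : F} (h : V.toAffine.Nonsingular x y) : cl D (.some x y h : V.toAffine.Point) = cy D y := rfl

theorem cl_ne (hD : D ≠ 0) (P : V.toAffine.Point) : cl D P ≠ 0 := by
  rcases P with _ | ⟨x, y, h⟩
  · exact one_ne_zero
  · exact cy_ne hD y

theorem cl_add [DecidableEq F] [CharZero F] (hV : IsD V D) (hD : D ≠ 0) (P Q : V.toAffine.Point) :
    IsC (cl D P * cl D Q / cl D (P + Q)) := by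
  rcases P with _ | ⟨x1, y1, n1⟩
  · have h1 : (Affine.Point.zero : V.toAffine.Point) + Q = Q := zero_add Q
    have h2 : cl D (Affine.Point.zero : V.toAffine.Point) = 1 := rfl
    rw [h1, h2, one_mul, div_self (cl_ne hD Q)]
    exact IsC.one
  rcases Q with _ | ⟨x2, y2, n2⟩
  · have h1 : ∀ P : V.toAffine.Point, P + Affine.Point.zero = P := fun P => add_zero P
    have h2 : cl D (Affine.Point.zero : V.toAffine.Point) = 1 := rfl
    rw [h1, h2, mul_one, div_self (cl_ne hD _)]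
    exact IsC.one
  have c1 := (hV.eqn _ _).1 n1.1
  have c2 := (hV.eqn _ _).1 n2.1
  by_cases hxy : x1 = x2 ∧ y1 = -y2 - D
  · rw [hV.add_opp n1 n2 hxy, cl_zero, div_one, cl_some, cl_some, hxy.2, mul_comm]
    exact cy_neg hD c2
  · obtain ⟨ℓ, X, Y, n3, e, eX, eY, hs⟩ := hV.add_ex n1 n2 hxy
    rw [e, cl_some, cl_some, cl_some]
    have c3 := (hV.eqn _ _).1 n3.1
    set m := y1 - ℓ * x1 with hm
    have k1 : y1 = ℓ * x1 + m := by rw [hm]; ring
    have k3 : -Y - D = ℓ * X + m := by rw [hm, eY]; ring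
    have e1 : x1 + x2 + X = ℓ ^ 2 := by rw [eX]; ring
    have key : y2 = ℓ * x2 + m ∧ x1 * x2 + x1 * X + x2 * X = -(2 * ℓ * m + D * ℓ) := by
      rcases hs with ⟨g1, g2⟩ | ⟨g1, g2, g3, g4⟩
      · have k2 : y2 = ℓ * x2 + m := by rw [hm]; linear_combination g2
        refine ⟨k2, ?_⟩
        apply mul_left_cancel₀ (sub_ne_zero.2 g1)
        rw [k1] at c1
        rw [k2] at c2
        rw [eX]
        linear_combination c1 - c2
      · refine ⟨by rw [← g2, ← g1]; exact k1, ?_⟩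
        rw [eX, ← g1]
        have h5 : ℓ * (2 * (ℓ * x1 + m) + D) = 3 * x1 ^ 2 := by rw [← k1]; exact g4
        linear_combination h5
    obtain ⟨k2, e2⟩ := key
    have e3 : x1 * x2 * X = m ^ 2 + D * m := by
      rw [k1] at c1
      linear_combination x1 * e2 - x1 ^ 2 * e1 - c1
    have c3' : (-Y - D) ^ 2 + D * (-Y - D) = X ^ 3 := by linear_combination c3
    have h := L3 hD k1 k2 k3 c1 c2 c3' e1 e2 e3
    have h' := cy_neg hD c3
    have h5 := h.div h'
    have e5 : cy D y1 * cy D y2 * cy D (-Y - D) / (cy D Y * cy D (-Y - D)) = cy D y1 * cy D y2 / cy D Y :=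
      mul_div_mul_right _ _ (cy_ne hD _)
    rwa [e5] at h5

/-- the points of class `1` -/
theorem cl_theta [DecidableEq F] [CharZero F] (hV : IsD V D) (hD : D ≠ 0) {I : F} (hI : I ^ 2 + I + 1 = 0)
    (R : V.toAffine.Point) : IsC (cl D (R - im hV hD hI R)) := by
  rcases R with _ | ⟨x, y, h⟩
  · have h1 : (Affine.Point.zero : V.toAffine.Point) - im hV hD hI Affine.Point.zero = 0 := by
      show (0 : V.toAffine.Point) - im hV hD hI 0 = 0
      rw [map_zero, sub_zero]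
    rw [h1, cl_zero]
    exact IsC.one
  · by_cases hx : x = 0
    · subst hx
      have h1 : im hV hD hI (.some 0 y h) = .some 0 y h := by
        rw [im_some, Affine.Point.some.injEq]
        exact ⟨by ring, rfl⟩
      rw [h1, sub_self, cl_zero]
      exact IsC.one
    · have hl := lamI hI
      obtain ⟨g, hg⟩ : ∃ g : F, y = D * I ^ 2 + (1 + 2 * I) * x * g := by
        refine ⟨(y - D * I ^ 2) / ((1 + 2 * I) * x), ?_⟩
        have h1 : (1 + 2 * I) * x ≠ 0 := mul_ne_zero hl hx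
        have e1 := div_mul_cancel₀ (y - D * I ^ 2) h1
        linear_combination -e1
      subst hg
      obtain ⟨X, h', e⟩ := one_sub_im hV hD hI h hx
      rw [e, cl_some]
      by_cases hg0 : g = 0
      · have hr := rel hI ((hV.eqn _ _).1 h.1) rfl
        rw [hg0] at hr ⊢
        have e1 : (0 : F) ^ 3 = 0 := by norm_num
        rw [e1, cy_zero]
        have h2 : D ^ 2 = (-x) ^ 3 := by linear_combination hr
        refine ⟨(-x) / D, div_ne_zero (neg_ne_zero.2 hx) hD, ?_⟩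
        rw [div_pow, ← h2]
        field_simp
      · rw [cy_of (pow_ne_zero 3 hg0)]
        exact IsC.of hg0

theorem theta_of_cube [DecidableEq F] [CharZero F] (hV : IsD V D) (hD : D ≠ 0) {I : F} (hI : I ^ 2 + I + 1 = 0)
    {X Y : F} (hn : V.toAffine.Nonsingular X Y) {g : F} (hg : Y = g ^ 3) (hg0 : g ≠ 0) :
    ∃ R : V.toAffine.Point, .some X Y hn = R - im hV hD hI R := by
  have hI0 := neI hI
  have hI3 := cubI hI
  have he := (hV.eqn _ _).1 hn.1
  set δ := X / g with hδ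
  have hX : X = δ * g := by rw [hδ]; field_simp
  have hδD : D = δ ^ 3 - g ^ 3 := by
    apply mul_left_cancel₀ (pow_ne_zero 3 hg0)
    rw [hg, hX] at he
    linear_combination he
  obtain ⟨x, hx⟩ : ∃ x : F, x = -(δ ^ 2 + δ * g + g ^ 2) := ⟨_, rfl⟩
  have hxr : x ^ 3 + 3 * g ^ 2 * x ^ 2 - 3 * D * g * x + D ^ 2 = 0 := by
    rw [hδD, hx]
    ring
  have hx0 : x ≠ 0 := by
    intro h
    rw [h] at hxr
    have h3 : D ^ 2 = 0 := by linear_combination hxr
    exact hD (pow_eq_zero_iff two_ne_zero |>.1 h3)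
  have hny : V.toAffine.Nonsingular x (D * I ^ 2 + (1 + 2 * I) * x * g) := by
    apply hV.nons hD
    linear_combination (D ^ 2 * (I ^ 2 - I) + 4 * g ^ 2 * x ^ 2 + D * (4 * g * x * I - 2 * g * x) + D ^ 2) * hI - hxr
  obtain ⟨X', h', e'⟩ := one_sub_im hV hD hI hny hx0
  have he' := (hV.eqn _ _).1 h'.1
  rw [← hg] at he'
  have h3 : (X - X') * (X - I * X') * (X - I ^ 2 * X') = 0 := by
    linear_combination he' - he + (X * X' * (X' * I - X)) * hI - X' ^ 3 * hI3
  set P0 : V.toAffine.Point := .some x _ hny with hP0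
  rcases mul_eq_zero.1 h3 with h4 | h4
  · rcases mul_eq_zero.1 h4 with h5 | h5
    · refine ⟨P0, ?_⟩
      rw [e', Affine.Point.some.injEq]
      exact ⟨sub_eq_zero.1 h5, hg⟩
    · refine ⟨im hV hD hI P0, ?_⟩
      rw [← map_sub, e', im_some, Affine.Point.some.injEq]
      exact ⟨sub_eq_zero.1 h5, hg⟩
  · refine ⟨im hV hD hI (im hV hD hI P0), ?_⟩
    rw [← map_sub, ← map_sub, e', im_some, im_some, Affine.Point.some.injEq]
    exact ⟨by rw [sub_eq_zero.1 h4]; ring, hg⟩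

theorem theta_of_cl [DecidableEq F] [CharZero F] (hV : IsD V D) (hD : D ≠ 0) {I : F} (hI : I ^ 2 + I + 1 = 0)
    (P : V.toAffine.Point) (h : IsC (cl D P)) : ∃ R : V.toAffine.Point, P = R - im hV hD hI R := by
  rcases P with _ | ⟨X, Y, hn⟩
  · exact ⟨0, by rw [map_zero, sub_zero]; rfl⟩
  · rw [cl_some] at h
    by_cases hY : Y = 0
    · subst hY
      rw [cy_zero] at h
      obtain ⟨s, hs, hs3⟩ := h.inv
      rw [inv_inv] at hs3
      have hn' := hV.neg_nons hD hn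
      obtain ⟨R, hR⟩ := theta_of_cube hV hD hI hn' (g := -s) (by rw [hs3]; ring) (neg_ne_zero.2 hs)
      refine ⟨-R, ?_⟩
      have h1 := hV.neg_eq hn hn'
      rw [hR] at h1
      rw [map_neg, ← neg_inj, h1]
      abel
    · rw [cy_of hY] at h
      obtain ⟨g, hg, hg3⟩ := h
      exact theta_of_cube hV hD hI hn hg3 hg

end Pool.Agent.Q123.CE
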