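import Pool.Agent.Q7.CE.Stm3
import Pool.Agent.Q285.CE.EDD
import Pool.Agent.Q123.CE.Cl

/-!
# Project CE (helper7), job FEND: the endomorphism `1 - ω` and the classes of the points
-/

set_option autoImplicit false

namespace Pool.Agent.Q123.CE

open WeierstrassCurve Pool.Agent.Q7.CE Pool.Agent.Q285.CE
open Pool.Agent.TH841.SH.D (Pt act)

section

variable {F : Type} [Field F]

/-- the class of a point -/
noncomputable def clP (D : F) {L : Type} [Field L] [Algebra F L] (P : Pt (ED D) L) : L :=
  @cl L _ ((ED D).baseChange L) (algebraMap F L D) P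

theorem clP_ne {D : F} (hD : D ≠ 0) {L : Type} [Field L] [Algebra F L] (P : Pt (ED D) L) : clP D P ≠ 0 :=
  cl_ne ((map_ne_zero _).2 hD) P

variable {D : F}

theorem cls_iff (hD : D ≠ 0) {L : Type} [Field L] [Algebra F L] (P : Pt (ED D) L) (a : L) :
    Cls D L P a ↔ IsC (a / clP D P) := by
  have hD' : algebraMap F L D ≠ 0 := (map_ne_zero _).2 hD
  constructor
  · rintro ⟨ha, ⟨rfl, s, hs⟩ | ⟨⟨h, rfl⟩, s, hs⟩ | ⟨x, y, h, s, rfl, hy, hs, rfl⟩⟩
    · have h1 : clP D (0 : Pt (ED D) L) = 1 := rfl
      rw [h1, div_one]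
      refine ⟨s, ?_, hs⟩
      rintro rfl
      apply ha
      rw [hs]
      norm_num
    · have h1 : clP D (Affine.Point.some 0 0 h : Pt (ED D) L) = (algebraMap F L D)⁻¹ := cy_zero _
      rw [h1, div_inv_eq_mul, hs]
      refine IsC.of ?_
      rintro rfl
      apply mul_ne_zero ha hD'
      rw [hs]
      norm_num
    · have h1 : clP D (Affine.Point.some x y h : Pt (ED D) L) = y := cy_of hy
      rw [h1, mul_div_cancel_left₀ _ hy]
      exact IsC.of hs
  · intro hC
    have ha : a ≠ 0 := by
      rintro rfl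
      rw [zero_div] at hC
      exact hC.ne rfl
    refine ⟨ha, ?_⟩
    rcases P with _ | ⟨x, y, h⟩
    · left
      have h1 : clP D (Affine.Point.zero : Pt (ED D) L) = 1 := rfl
      rw [h1, div_one] at hC
      obtain ⟨s, _, hs⟩ := hC
      exact ⟨rfl, s, hs⟩
    · right
      by_cases hy : y = 0
      · left
        subst hy
        have he := ((isD_base D L).eqn x 0).1 h.1
        have hx : x = 0 := by
          have : x ^ 3 = 0 := by rw [← he]; ring
          exact pow_eq_zero_iff three_ne_zero |>.1 this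
        subst hx
        have h1 : clP D (Affine.Point.some 0 0 h : Pt (ED D) L) = (algebraMap F L D)⁻¹ := cy_zero _
        rw [h1, div_inv_eq_mul] at hC
        obtain ⟨s, _, hs⟩ := hC
        exact ⟨⟨h, rfl⟩, s, hs⟩
      · right
        have h1 : clP D (Affine.Point.some x y h : Pt (ED D) L) = y := cy_of hy
        rw [h1] at hC
        obtain ⟨s, hs, hs3⟩ := hC
        refine ⟨x, y, h, s, rfl, hy, hs, ?_⟩
        rw [← hs3, mul_div_cancel₀ _ hy]

variable [CharZero F]

theorem clP_add (hD : D ≠ 0) (L : Type) [Field L] [Algebra F L] (P Q : Pt (ED D) L) :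
    IsC (clP D P * clP D Q / clP D (P + Q)) :=
  @cl_add L _ ((ED D).baseChange L) (algebraMap F L D) (Classical.decEq L)
    (charZero_of_injective_algebraMap (algebraMap F L).injective) (isD_base D L) ((map_ne_zero _).2 hD) P Q

theorem clP_theta {ω : F} (hD : D ≠ 0) (hω : ω ^ 2 + ω + 1 = 0) (L : Type) [Field L] [Algebra F L]
    (R : Pt (ED D) L) : IsC (clP D (R - imP hD hω L R)) :=
  @cl_theta L _ ((ED D).baseChange L) (algebraMap F L D) (Classical.decEq L)
    (charZero_of_injective_algebraMap (algebraMap F L).injective) (isD_base D L) ((map_ne_zero _).2 hD)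
    (algebraMap F L ω) (by
      rw [← map_pow, ← map_add, ← map_one (algebraMap F L), ← map_add, hω, map_zero]) R

theorem theta_of_clP {ω : F} (hD : D ≠ 0) (hω : ω ^ 2 + ω + 1 = 0) (L : Type) [Field L] [Algebra F L]
    (P : Pt (ED D) L) (h : IsC (clP D P)) : ∃ R, P = R - imP hD hω L R :=
  @theta_of_cl L _ ((ED D).baseChange L) (algebraMap F L D) (Classical.decEq L)
    (charZero_of_injective_algebraMap (algebraMap F L).injective) (isD_base D L) ((map_ne_zero _).2 hD)
    (algebraMap F L ω) (by
      rw [← map_pow, ← map_add, ← map_one (algebraMap F L), ← map_add, hω, map_zero]) P h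

end

theorem fend : S_FEND := by
  intro F _ _ ω D hω0 hD
  have hω : ω ^ 2 + ω + 1 = 0 := by
    have h1 : (ω - 1) * (ω ^ 2 + ω + 1) = 0 := by
      have := hω0.pow_eq_one
      linear_combination this
    refine (mul_eq_zero.1 h1).resolve_left fun h2 => ?_
    exact hω0.ne_one (by norm_num) (sub_eq_zero.1 h2)
  refine ⟨fun L _ _ => AddMonoidHom.id (Pt (ED D) L) - imP hD hω L,
    fun L _ _ => AddMonoidHom.id (Pt (ED D) L) - (imP hD hω L).comp (imP hD hω L), ?_, ?_, ?_, ?_, ?_⟩
  · intro L _ _ P
    refine ⟨?_, ?_, -imP hD hω L P, ?_⟩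
    · show P - imP hD hω L P - imP hD hω L (imP hD hω L (P - imP hD hω L P)) = 3 • P
      rw [map_sub, map_sub, imP3, imP_imP]
      abel
    · show P - imP hD hω L (imP hD hω L P) - imP hD hω L (P - imP hD hω L (imP hD hω L P)) = 3 • P
      rw [map_sub, imP3, imP_imP]
      abel
    · show P - imP hD hω L P - imP hD hω L (P - imP hD hω L P) = 3 • (-imP hD hω L P)
      rw [map_sub, imP_imP]
      abel
  · intro L L' _ _ _ _ φ P
    show act (ED D) φ (P - imP hD hω L P) = act (ED D) φ P - imP hD hω L' (act (ED D) φ P)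
    rw [map_sub, imP_act]
  · intro L _ _ P h
    exact imP_ker hD hω L P h
  · intro L _ _ P
    refine ⟨⟨clP D P, ?_⟩, ?_, ?_, ?_, ?_⟩
    · rw [cls_iff hD, div_self (clP_ne hD P)]
      exact IsC.one
    · intro a s ha hs
      rw [cls_iff hD] at ha ⊢
      have e : a * s ^ 3 / clP D P = a / clP D P * s ^ 3 := by ring
      rw [e]
      exact ha.mul (IsC.of hs)
    · intro a b ha hb
      have ha0 := ha.1
      rw [cls_iff hD] at ha hb
      obtain ⟨s, hs, h⟩ := hb.div ha
      refine ⟨s, hs, ?_⟩
      rw [← h, div_div_div_cancel_right₀ (clP_ne hD P), mul_div_cancel₀ _ ha0]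
    · intro Q a b ha hb
      rw [cls_iff hD] at ha hb ⊢
      have h := (ha.mul hb).mul (clP_add hD L P Q)
      have e : a / clP D P * (b / clP D Q) * (clP D P * clP D Q / clP D (P + Q)) = a * b / clP D (P + Q) := by
        have h1 := clP_ne hD P
        have h2 := clP_ne hD Q
        have h3 := clP_ne hD (P + Q)
        field_simp
      rwa [e] at h
    · intro s hs
      rw [cls_iff hD]
      constructor
      · intro h
        refine theta_of_clP hD hω L P ?_
        have h1 := ((IsC.of hs).inv.mul h).inv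
        have e : ((s ^ 3)⁻¹ * (s ^ 3 / clP D P))⁻¹ = clP D P := by
          have h2 := clP_ne hD P
          have h3 := pow_ne_zero 3 hs
          field_simp
        rwa [e] at h1
      · rintro ⟨R, rfl⟩
        exact (IsC.of hs).div (clP_theta hD hω L R)
  · intro L L' _ _ _ _ φ P a ha
    rw [cls_iff hD] at ha ⊢
    have e : clP D (act (ED D) φ P) = φ (clP D P) := by
      rcases P with _ | ⟨x, y, h⟩
      · exact (map_one φ).symm
      · show cy (algebraMap F L' D) (φ y) = φ (cy (algebraMap F L D) y)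
        by_cases hy : y = 0
        · rw [hy, map_zero, cy_zero, cy_zero, map_inv₀, AlgHom.commutes]
        · rw [cy_of hy, cy_of ((map_ne_zero _).2 hy)]
    rw [e]
    obtain ⟨s, hs, h⟩ := ha
    refine ⟨φ s, (map_ne_zero _).2 hs, ?_⟩
    rw [← map_div₀, h, map_pow]

end Pool.Agent.Q123.CE
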